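import Pool.Agent.H.MP_eea557_ag.A

namespace Pool.Agent.H.MP_ac8f1a_ag

open MvPolynomial Finset Pool.Agent.H.MP_eea557_ag

variable {K : Type} [Field K] {l : ℕ}

/-- the part of a that contributes to degree n after multiplying by a form of degree d -/
noncomputable def cp (n d : ℕ) (a : MvPolynomial (Fin l) K) : MvPolynomial (Fin l) K :=
  if d ≤ n then homogeneousComponent (n - d) a else 0

theorem hc_mul (n d : ℕ) (a w : MvPolynomial (Fin l) K) (hw : w.IsHomogeneous d) :
    homogeneousComponent n (a * w) = cp n d a * w := by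
  conv_lhs => rw [← sum_homogeneousComponent a, sum_mul, map_sum]
  have c (i : ℕ) : homogeneousComponent n (homogeneousComponent i a * w)
      = if n = i + d then homogeneousComponent i a * w else 0 :=
    homogeneousComponent_of_mem ((homogeneousComponent_isHomogeneous i a).mul hw)
  simp only [c, cp]
  split_ifs with h
  · rw [sum_eq_single (n - d), if_pos (by omega)]
    · intro j _ hn
      rw [if_neg (by omega)]
    · intro hn
      rw [homogeneousComponent_eq_zero _ _ (by rw [mem_range] at hn; omega), zero_mul, ite_self]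
  · rw [zero_mul]
    exact sum_eq_zero fun j _ => if_neg (by omega)

theorem comb {ι : Type} [Fintype ι] (w : ι → Fin l → MvPolynomial (Fin l) K) (d : ι → ℕ)
    (hw : ∀ i j, (w i j).IsHomogeneous (d i)) (v : Fin l → MvPolynomial (Fin l) K) (n : ℕ)
    (hv : ∀ j, (v j).IsHomogeneous n) (a : ι → MvPolynomial (Fin l) K) (h : ∑ i, a i • w i = v) :
    ∑ i, cp n (d i) (a i) • w i = v := by
  funext j
  have := congrArg (homogeneousComponent n) (congrFun h j)
  rw [homogeneousComponent_eq_self (hv j), Finset.sum_apply, map_sum] at this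
  rw [← this, Finset.sum_apply]
  exact sum_congr rfl fun i _ => (hc_mul n (d i) (a i) _ (hw i j)).symm

theorem cp_self (d : ℕ) (a : MvPolynomial (Fin l) K) : cp d d a = C (constantCoeff a) := by
  simp [cp, homogeneousComponent_zero, constantCoeff_eq]

theorem mem_others {R V ι : Type} [CommRing R] [AddCommGroup V] [Module R V] [Fintype ι]
    (η : ι → V) (r : ι → R) (j : ι) (hj : r j = 0) :
    ∑ i, r i • η i ∈ Submodule.span R (η '' {j}ᶜ) := by
  refine Submodule.sum_mem _ fun i _ => ?_
  by_cases h : i = j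
  · rw [h, hj, zero_smul]
    exact zero_mem _
  · exact Submodule.smul_mem _ _ (Submodule.subset_span ⟨i, h, rfl⟩)

theorem const_zero {ι : Type} [Fintype ι] (η : ι → Fin l → MvPolynomial (Fin l) K) (d : ι → ℕ)
    (hη : ∀ i j, (η i j).IsHomogeneous (d i))
    (hm : ∀ i, η i ∉ Submodule.span (MvPolynomial (Fin l) K) (η '' {i}ᶜ))
    (r : ι → MvPolynomial (Fin l) K) (h : ∑ i, r i • η i = 0) (j : ι) :
    constantCoeff (r j) = 0 := by
  classical
  by_contra hc
  apply hm j
  have h1 := comb η d hη 0 (d j) (fun _ => isHomogeneous_zero _ _ _) r h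
  have h2 := mem_others η (Function.update (fun i => cp (d j) (d i) (r i)) j 0) j (by simp)
  have h3 : ∑ i, Function.update (fun i => cp (d j) (d i) (r i)) j 0 i • η i =
      -((C (constantCoeff (r j)) : MvPolynomial (Fin l) K) • η j) := by
    rw [← Finset.add_sum_erase _ _ (mem_univ j)] at h1 ⊢
    rw [Function.update_self, zero_smul, zero_add, eq_neg_iff_add_eq_zero, add_comm, ← h1, cp_self]
    congr 1
    exact sum_congr rfl fun i hi => by rw [Function.update_of_ne (ne_of_mem_erase hi)]
  rw [h3, neg_mem_iff] at h2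
  have h4 := Submodule.smul_mem _ (C (constantCoeff (r j))⁻¹ : MvPolynomial (Fin l) K) h2
  rwa [smul_smul, ← map_mul, inv_mul_cancel₀ hc, map_one, one_smul] at h4

theorem abstract {ι κ : Type} [Fintype ι] [Fintype κ]
    (η : ι → Fin l → MvPolynomial (Fin l) K) (d : ι → ℕ)
    (hη : ∀ i j, (η i j).IsHomogeneous (d i))
    (hm : ∀ i, η i ∉ Submodule.span (MvPolynomial (Fin l) K) (η '' {i}ᶜ))
    (T : κ → Fin l → MvPolynomial (Fin l) K) (D : κ → ℕ)
    (hT : ∀ i j, (T i j).IsHomogeneous (D i)) (b : ℕ) (hD : ∀ k, D k ≤ b)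
    (hs : Submodule.span (MvPolynomial (Fin l) K) (Set.range η) =
      Submodule.span (MvPolynomial (Fin l) K) (Set.range T))
    (hsyz : ∀ (c : κ → MvPolynomial (Fin l) K) (e : ℕ), e ≤ b + 1 → ∑ k, c k • T k = 0 →
      (∀ k, c k = 0 ∨ ∃ f, (c k).IsHomogeneous f ∧ f + D k = e) → c = 0)
    (N : ι → MvPolynomial (Fin l) K) (i0 : ι) (hN : ∑ i, N i • η i = 0)
    (hNd : ∀ i, N i = 0 ∨ ∃ e, (N i).IsHomogeneous e ∧ e + d i = d i0 + 1) : N = 0 := by
  classical
  have a0 : ∀ i, ∃ a : κ → MvPolynomial (Fin l) K, ∑ k, a k • T k = η i := fun i =>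
    (Submodule.mem_span_range_iff_exists_fun _).1 (hs ▸ Submodule.subset_span ⟨i, rfl⟩)
  have b0 : ∀ k, ∃ a : ι → MvPolynomial (Fin l) K, ∑ i, a i • η i = T k := fun k =>
    (Submodule.mem_span_range_iff_exists_fun _).1 (hs ▸ Submodule.subset_span ⟨k, rfl⟩)
  choose A hA using a0
  choose B hB using b0
  have hA' := fun i => comb T D hT (η i) (d i) (hη i) (A i) (hA i)
  have hB' := fun k => comb η d hη (T k) (D k) (hT k) (B k) (hB k)
  have hd : d i0 ≤ b := by
    by_contra hlt
    apply hm i0
    have : ∑ k, A i0 k • T k ∈ Submodule.span (MvPolynomial (Fin l) K) (η '' {i0}ᶜ) := by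
      refine Submodule.sum_mem _ fun k _ => Submodule.smul_mem _ _ ?_
      rw [← hB' k]
      refine mem_others η _ i0 ?_
      have := hD k
      rw [cp, if_neg (by omega)]
    rwa [hA] at this
  let a : Matrix ι κ (MvPolynomial (Fin l) K) := fun i k => cp (d i) (D k) (A i k)
  have hc : Matrix.vecMul N a = 0 := by
    refine hsyz _ (d i0 + 1) (by omega) ?_ fun k => ?_
    · rw [← hN]
      simp only [Matrix.vecMul, dotProduct, sum_smul, mul_smul]
      rw [sum_comm]
      exact sum_congr rfl fun i _ => by rw [← smul_sum, hA' i]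
    · by_cases hk : D k ≤ d i0 + 1
      · refine Or.inr ⟨d i0 + 1 - D k, ?_, by omega⟩
        refine IsHomogeneous.sum _ _ _ fun i _ => ?_
        rcases hNd i with h | ⟨e, h, he⟩
        · rw [h, zero_mul]
          exact isHomogeneous_zero _ _ _
        · simp only [a, cp]
          split_ifs with h'
          · convert h.mul (homogeneousComponent_isHomogeneous (d i - D k) (A i k)) using 1
            omega
          · rw [mul_zero]
            exact isHomogeneous_zero _ _ _
      · left
        refine sum_eq_zero fun i _ => ?_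
        rcases hNd i with h | ⟨e, h, he⟩
        · rw [h, zero_mul]
        · simp only [a, cp]
          rw [if_neg (by omega), mul_zero]
  let M : Matrix ι ι (MvPolynomial (Fin l) K) := a * (Matrix.of B)
  have hM : ∀ i j, constantCoeff ((1 - M) i j) = 0 := by
    intro i
    refine const_zero η d hη hm _ ?_
    simp only [Matrix.sub_apply, sub_smul, sum_sub_distrib, M, Matrix.mul_apply, sum_smul,
      mul_smul, Matrix.of_apply]
    rw [sub_eq_zero, sum_comm]
    simp only [← smul_sum, hB, a, hA' i, Matrix.one_apply, ite_smul, one_smul, zero_smul,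
      sum_ite_eq, mem_univ, if_true]
  have hdet : M.det ≠ 0 := by
    intro h
    have h1 := RingHom.map_det (constantCoeff : MvPolynomial (Fin l) K →+* K) M
    have h2 : (constantCoeff : MvPolynomial (Fin l) K →+* K).mapMatrix M = 1 := by
      ext i j
      have := hM i j
      rw [Matrix.sub_apply, map_sub, sub_eq_zero] at this
      rw [RingHom.mapMatrix_apply, Matrix.map_apply, ← this, Matrix.one_apply, Matrix.one_apply]
      split_ifs <;> simp
    rw [h, h2] at h1
    simp at h1
  refine Matrix.eq_zero_of_vecMul_eq_zero hdet ?_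
  rw [← Matrix.vecMul_vecMul, hc, Matrix.zero_vecMul]

end Pool.Agent.H.MP_ac8f1a_ag
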