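import Pool.Agent.H.MP_ac8f1a_ag.A


namespace Pool.Agent.H.MP_ac8f1a_ag

open MvPolynomial Finset Pool.Agent.H.MP_eea557_ag CategoryTheory

variable {K : Type} [Field K] [CharZero K]

/-- the seven lines -/
noncomputable def al (K : Type) [Field K] : Fin 7 → MvPolynomial (Fin 3) K :=
  ![X 2, X 0 - X 2, X 0 + X 2, X 1 - X 2, X 1 + X 2, X 0 + X 1 - X 2, X 0 + X 1 + X 2]

noncomputable abbrev q1 (K : Type) [Field K] : MvPolynomial (Fin 3) K := (X 0 - X 2) * (X 0 + X 2)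
noncomputable abbrev q2 (K : Type) [Field K] : MvPolynomial (Fin 3) K := (X 1 - X 2) * (X 1 + X 2)
noncomputable abbrev q3 (K : Type) [Field K] : MvPolynomial (Fin 3) K :=
  (X 0 + X 1 - X 2) * (X 0 + X 1 + X 2)

/-- generators -/
noncomputable def T (K : Type) [Field K] : Fin 4 → Fin 3 → MvPolynomial (Fin 3) K :=
  ![![X 0, X 1, X 2], ![q1 K * q2 K, -(q1 K * q2 K), 0], ![q1 K * q3 K, 0, 0], ![0, q2 K * q3 K, 0]]

omit [CharZero K] in
theorem nd {a f : MvPolynomial (Fin 3) K} (v : Fin 3 → K) (h1 : eval v a = 0) (h2 : eval v f ≠ 0) :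
    ¬ a ∣ f := by
  rintro ⟨c, rfl⟩
  exact h2 (by rw [map_mul, h1, zero_mul])

omit [CharZero K] in
theorem al_hom (H : Fin 7) : (al K H).IsHomogeneous 1 := by
  have h := fun i : Fin 3 => isHomogeneous_X K i
  fin_cases H
  exacts [h 2, (h 0).sub (h 2), (h 0).add (h 2), (h 1).sub (h 2), (h 1).add (h 2),
    ((h 0).add (h 1)).sub (h 2), ((h 0).add (h 1)).add (h 2)]

/-- a point on each line and on no other -/
def pt (K : Type) [Field K] : Fin 7 → Fin 3 → K :=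
  ![![1, 1, 0], ![1, 3, 1], ![-1, 3, 1], ![3, 1, 1], ![3, -1, 1], ![3, -2, 1], ![3, -4, 1]]

theorem pt_spec (i j : Fin 7) : eval (pt K i) (al K j) = 0 ↔ i = j := by
  fin_cases i <;> fin_cases j <;> simp [pt, al] <;> norm_num

theorem al_nd {i j : Fin 7} (h : i ≠ j) : ¬ al K i ∣ al K j :=
  nd (pt K i) ((pt_spec i i).2 rfl) (fun e => h ((pt_spec i j).1 e))

theorem al_ne (i : Fin 7) : al K i ≠ 0 := by
  intro h
  obtain ⟨j, hj⟩ := exists_ne i
  exact al_nd hj (h ▸ dvd_zero _)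

theorem al_prime (i : Fin 7) : Prime (al K i) := lin_prime (al_hom i) (al_ne i)

theorem al_rp {i j : Fin 7} (h : i ≠ j) : IsRelPrime (al K i) (al K j) :=
  (al_prime i).irreducible.isRelPrime_iff_not_dvd.2 (al_nd h)

theorem rp {i j k m : Fin 7} (h1 : i ≠ k) (h2 : i ≠ m) (h3 : j ≠ k) (h4 : j ≠ m) :
    IsRelPrime (al K i * al K j) (al K k * al K m) :=
  ((al_rp h1).mul_right (al_rp h2)).mul_left ((al_rp h3).mul_right (al_rp h4))

theorem rp12 : IsRelPrime (q1 K) (q2 K) :=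
  rp (i := 1) (j := 2) (k := 3) (m := 4) (by decide) (by decide) (by decide) (by decide)

theorem rp13 : IsRelPrime (q1 K) (q3 K) :=
  rp (i := 1) (j := 2) (k := 5) (m := 6) (by decide) (by decide) (by decide) (by decide)

theorem q1_ne : q1 K ≠ 0 := mul_ne_zero (al_ne 1) (al_ne 2)
theorem q2_ne : q2 K ≠ 0 := mul_ne_zero (al_ne 3) (al_ne 4)
theorem q3_ne : q3 K ≠ 0 := mul_ne_zero (al_ne 5) (al_ne 6)

omit [CharZero K] in
theorem mem_iff (v : Fin 3 → MvPolynomial (Fin 3) K) : v ∈ DA (al K) ↔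
    al K 0 ∣ v 2 ∧ al K 1 ∣ v 0 - v 2 ∧ al K 2 ∣ v 0 + v 2 ∧ al K 3 ∣ v 1 - v 2 ∧
      al K 4 ∣ v 1 + v 2 ∧ al K 5 ∣ v 0 + v 1 - v 2 ∧ al K 6 ∣ v 0 + v 1 + v 2 := by
  change (∀ H, al K H ∣ ∑ j, v j * pderiv j (al K H)) ↔ _
  have e : ∀ H, ∑ j, v j * pderiv j (al K H) =
      ![v 2, v 0 - v 2, v 0 + v 2, v 1 - v 2, v 1 + v 2, v 0 + v 1 - v 2, v 0 + v 1 + v 2] H := by
    intro H
    fin_cases H <;> simp [al, Fin.sum_univ_three, pderiv_X] <;> ring
  simp only [e, Fin.forall_fin_succ]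
  simp

omit [CharZero K] in
theorem T_mem (i : Fin 4) : T K i ∈ DA (al K) := by
  rw [mem_iff]
  fin_cases i
  · simp [T, al]
  · simp only [T, al]
    simp
    refine ⟨?_, ?_, ?_, ?_⟩
    · exact ⟨(X 0 + X 2) * q2 K, by ring⟩
    · exact ⟨(X 0 - X 2) * q2 K, by ring⟩
    · exact ⟨(X 1 + X 2) * q1 K, by ring⟩
    · exact ⟨(X 1 - X 2) * q1 K, by ring⟩
  · simp only [T, al]
    simp
    refine ⟨?_, ?_, ?_, ?_⟩
    · exact ⟨(X 0 + X 2) * q3 K, by ring⟩
    · exact ⟨(X 0 - X 2) * q3 K, by ring⟩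
    · exact ⟨(X 0 + X 1 + X 2) * q1 K, by ring⟩
    · exact ⟨(X 0 + X 1 - X 2) * q1 K, by ring⟩
  · simp only [T, al]
    simp
    refine ⟨?_, ?_, ?_, ?_⟩
    · exact ⟨(X 1 + X 2) * q3 K, by ring⟩
    · exact ⟨(X 1 - X 2) * q3 K, by ring⟩
    · exact ⟨(X 0 + X 1 + X 2) * q2 K, by ring⟩
    · exact ⟨(X 0 + X 1 - X 2) * q2 K, by ring⟩

theorem z_reg (w : MvPolynomial (Fin 3) K) (h : X 2 * w ∈ Ideal.span {q1 K, q2 K}) :
    w ∈ Ideal.span {q1 K, q2 K} := by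
  obtain ⟨u, v, huv⟩ := Ideal.mem_span_pair.1 h
  let π : MvPolynomial (Fin 3) K →ₐ[K] MvPolynomial (Fin 3) K := aeval ![X 0, X 1, 0]
  have hπ : ∀ f, X 2 ∣ f - π f := by
    intro f
    induction f using MvPolynomial.induction_on with
    | C a => simp [π]
    | add p q hp hq => convert dvd_add hp hq using 1; rw [map_add]; ring
    | mul_X p j hp =>
      have : X 2 ∣ X j - π (X j) := by
        fin_cases j <;> simp [π]
      convert dvd_add (hp.mul_right (X j)) (this.mul_left (π p)) using 1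
      rw [map_mul]
      ring
  have h0 := congrArg π huv
  simp only [map_add, map_mul, map_sub, π, aeval_X] at h0
  simp only [Matrix.cons_val_zero, Matrix.cons_val_one, Matrix.cons_val, sub_zero, add_zero,
    zero_mul] at h0
  change π u * (X 0 * X 0) + π v * (X 1 * X 1) = 0 at h0
  have hr : IsRelPrime (X 1 : MvPolynomial (Fin 3) K) (X 0) :=
    (X_prime (i := 1)).irreducible.isRelPrime_iff_not_dvd.2 (nd ![1, 0, 0] (by simp) (by simp))
  have hr2 : IsRelPrime (X 1 * X 1 : MvPolynomial (Fin 3) K) (X 0 * X 0) :=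
    (hr.mul_right hr).mul_left (hr.mul_right hr)
  obtain ⟨t, ht⟩ : X 1 * X 1 ∣ π u :=
    hr2.dvd_of_dvd_mul_right ⟨-π v, by linear_combination h0⟩
  have hv : π v = -(X 0 * X 0 * t) := by
    apply mul_left_cancel₀ (mul_ne_zero (X_ne_zero (R := K) (1 : Fin 3)) (X_ne_zero 1))
    linear_combination h0 - (X 0 * X 0) * ht
  obtain ⟨u', hu'⟩ := hπ u
  obtain ⟨v', hv'⟩ := hπ v
  refine Ideal.mem_span_pair.2 ⟨u' + X 2 * t, v' - X 2 * t, ?_⟩
  apply mul_left_cancel₀ (X_ne_zero (R := K) (2 : Fin 3))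
  linear_combination huv - q1 K * hu' - q2 K * hv' - q1 K * ht - q2 K * hv

theorem q3_reg (w : MvPolynomial (Fin 3) K) (h : q3 K * w ∈ Ideal.span {q1 K, q2 K}) :
    w ∈ Ideal.span {q1 K, q2 K} := by
  obtain ⟨u, v, huv⟩ := Ideal.mem_span_pair.1 h
  have h3 : IsUnit (3 : MvPolynomial (Fin 3) K) := by
    have := (IsUnit.mk0 (3 : K) (by norm_num)).map (C : K →+* MvPolynomial (Fin 3) K)
    rwa [map_ofNat] at this
  rw [← Ideal.unit_mul_mem_iff_mem _ h3]
  refine z_reg _ (z_reg _ (z_reg _ (z_reg _ ?_)))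
  refine Ideal.mem_span_pair.2 ⟨((X 0 + X 1) ^ 2 - 3 * X 2 ^ 2) * u - (X 0 + X 1) * (X 0 + 3 * X 1) * w,
    ((X 0 + X 1) ^ 2 - 3 * X 2 ^ 2) * v - (X 0 + X 1) * (3 * X 0 + X 1) * w, ?_⟩
  linear_combination ((X 0 + X 1) ^ 2 - 3 * X 2 ^ 2) * huv

theorem koszul (u s w : MvPolynomial (Fin 3) K) (h : q1 K * u + q2 K * s = q3 K * w) :
    ∃ a b t, u = a * q3 K + q2 K * t ∧ s = b * q3 K - q1 K * t := by
  obtain ⟨a, b, hab⟩ := Ideal.mem_span_pair.1 (q3_reg w (Ideal.mem_span_pair.2 ⟨u, s, by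
    linear_combination h⟩))
  have r := rp12 (K := K)
  have n2 := q2_ne (K := K)
  generalize q1 K = p1 at *
  generalize q2 K = p2 at *
  generalize q3 K = p3 at *
  obtain ⟨t, ht⟩ : p2 ∣ u - a * p3 :=
    r.symm.dvd_of_dvd_mul_right ⟨b * p3 - s, by linear_combination h - p3 * hab⟩
  refine ⟨a, b, t, by linear_combination ht, ?_⟩
  apply mul_left_cancel₀ n2
  linear_combination h - p3 * hab - p1 * ht

theorem gen (v : Fin 3 → MvPolynomial (Fin 3) K) (hv : v ∈ DA (al K)) :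
    ∃ a : Fin 4 → MvPolynomial (Fin 3) K, ∑ i, a i • T K i = v := by
  obtain ⟨c, hc⟩ := ((mem_iff v).1 hv).1
  have hc' : v 2 = X 2 * c := hc
  have h1 := (DA (al K)).sub_mem hv ((DA (al K)).smul_mem c (T_mem 0))
  have h2 : (v - c • T K 0) 2 = 0 := by
    simp [T, hc', mul_comm]
  have h3 : (v - c • T K 0) 0 = v 0 - c * X 0 := by simp [T]
  have h4 : (v - c • T K 0) 1 = v 1 - c * X 1 := by simp [T]
  obtain ⟨-, d1, d2, d3, d4, d5, d6⟩ := (mem_iff _).1 h1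
  rw [h2, h3, sub_zero] at d1
  rw [h2, h3, add_zero] at d2
  rw [h2, h4, sub_zero] at d3
  rw [h2, h4, add_zero] at d4
  rw [h2, h3, h4, sub_zero] at d5
  rw [h2, h3, h4, add_zero] at d6
  obtain ⟨u, hu⟩ := (al_rp (K := K) (i := 1) (j := 2) (by decide)).mul_dvd d1 d2
  obtain ⟨s, hs⟩ := (al_rp (K := K) (i := 3) (j := 4) (by decide)).mul_dvd d3 d4
  obtain ⟨w, hw⟩ := (al_rp (K := K) (i := 5) (j := 6) (by decide)).mul_dvd d5 d6
  change _ = q1 K * u at hu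
  change _ = q2 K * s at hs
  change _ = q3 K * w at hw
  obtain ⟨a, b, t, ha, hb⟩ := koszul u s w (by rw [← hu, ← hs, hw])
  refine ⟨![c, t, a, b], ?_⟩
  funext j
  fin_cases j
  · simp [T, Fin.sum_univ_four]
    linear_combination -hu - q1 K * ha
  · simp [T, Fin.sum_univ_four]
    linear_combination -hs - q2 K * hb
  · simp [T, Fin.sum_univ_four]
    linear_combination -hc'

theorem syz (c : Fin 4 → MvPolynomial (Fin 3) K) (h : ∑ i, c i • T K i = 0) :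
    ∃ t : MvPolynomial (Fin 3) K, c = t • ![0, q3 K, -q2 K, q1 K] := by
  have h0 := congrFun h 0
  have h1 := congrFun h 1
  have h2 := congrFun h 2
  simp [T, Fin.sum_univ_four] at h0 h1 h2
  rw [h2] at h0 h1
  have e0 : c 1 * q2 K + c 2 * q3 K = 0 := by
    apply mul_left_cancel₀ q1_ne
    linear_combination h0
  have e1 : c 3 * q3 K = q1 K * c 1 := by
    apply mul_left_cancel₀ q2_ne
    linear_combination h1
  obtain ⟨t, ht⟩ : q1 K ∣ c 3 := rp13.dvd_of_dvd_mul_right ⟨_, e1⟩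
  have e2 : c 1 = t * q3 K := by
    apply mul_left_cancel₀ q1_ne
    linear_combination q3 K * ht - e1
  have e3 : c 2 = t * -q2 K := by
    apply mul_left_cancel₀ q3_ne
    linear_combination e0 - q2 K * e2
  refine ⟨t, ?_⟩
  funext i
  fin_cases i
  · simpa using h2
  · simpa using e2
  · simpa using e3
  · simpa [mul_comm] using ht

end Pool.Agent.H.MP_ac8f1a_ag
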