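import Pool.Agent.H.MP_ac8f1a_ag.B


namespace Pool.Agent.H.MP_ac8f1a_ag

open MvPolynomial Finset Pool.Agent.H.MP_eea557_ag CategoryTheory

variable {K : Type} [Field K] [CharZero K]

omit [CharZero K] in
theorem q_hom : (q1 K).IsHomogeneous 2 ∧ (q2 K).IsHomogeneous 2 ∧ (q3 K).IsHomogeneous 2 :=
  ⟨(al_hom 1).mul (al_hom 2), (al_hom 3).mul (al_hom 4), (al_hom 5).mul (al_hom 6)⟩

omit [CharZero K] in
theorem T_hom (i : Fin 4) (j : Fin 3) : (T K i j).IsHomogeneous (![1, 4, 4, 4] i) := by
  obtain ⟨h1, h2, h3⟩ := q_hom (K := K)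
  have h := fun i : Fin 3 => isHomogeneous_X K i
  have z := isHomogeneous_zero (Fin 3) K 4
  fin_cases i <;> fin_cases j
  exacts [h 0, h 1, h 2, h1.mul h2, (h1.mul h2).neg, z, h1.mul h3, z, z, z, h2.mul h3, z]

theorem span_T : Submodule.span (MvPolynomial (Fin 3) K) (Set.range (T K)) = DA (al K) :=
  le_antisymm (Submodule.span_le.2 (Set.range_subset_iff.2 T_mem))
    fun v hv => (Submodule.mem_span_range_iff_exists_fun _).2 (gen v hv)

omit [CharZero K] in
theorem rel : ∑ i, (![0, q3 K, -q2 K, q1 K] : Fin 4 → MvPolynomial (Fin 3) K) i • T K i = 0 := by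
  funext j
  fin_cases j <;> simp [T, Fin.sum_univ_four] <;> ring

theorem low (c : Fin 4 → MvPolynomial (Fin 3) K) (e : ℕ) (he : e ≤ 4 + 1)
    (h : ∑ k, c k • T K k = 0)
    (hc : ∀ k, c k = 0 ∨ ∃ f, (c k).IsHomogeneous f ∧ f + ![1, 4, 4, 4] k = e) : c = 0 := by
  obtain ⟨t, rfl⟩ := syz c h
  by_cases ht : t = 0
  · rw [ht, zero_smul]
  exfalso
  have n : t * q1 K ≠ 0 := mul_ne_zero ht q1_ne
  rcases hc 3 with h0 | ⟨f, hf, hfe⟩
  · exact n h0
  · have e1 : (t * q1 K).totalDegree = f := hf.totalDegree n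
    rw [totalDegree_mul_of_isDomain ht q1_ne, q_hom.1.totalDegree q1_ne] at e1
    have : f + 4 = e := hfe
    omega

/-- the presentation map -/
noncomputable def pres (K : Type) [Field K] :
    (Fin 4 → MvPolynomial (Fin 3) K) →ₗ[MvPolynomial (Fin 3) K] DA (al K) :=
  Fintype.linearCombination (MvPolynomial (Fin 3) K) fun i => ⟨T K i, T_mem i⟩

omit [CharZero K] in
theorem pres_val (c : Fin 4 → MvPolynomial (Fin 3) K) : (pres K c).1 = ∑ i, c i • T K i := by
  simp [pres, Fintype.linearCombination_apply]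

theorem pres_surj : Function.Surjective (pres K) := fun v => by
  obtain ⟨a, ha⟩ := gen v.1 v.2
  exact ⟨a, Subtype.ext (by rw [pres_val, ha])⟩

theorem not_proj : ¬ Module.Projective (MvPolynomial (Fin 3) K) (DA (al K)) := by
  intro hp
  obtain ⟨s, hs⟩ := Module.projective_lifting_property (pres K) LinearMap.id pres_surj
  have h1 : ∀ x, ∃ t : MvPolynomial (Fin 3) K, x - s (pres K x) = t • ![0, q3 K, -q2 K, q1 K] := by
    intro x
    apply syz
    rw [← pres_val, map_sub, ← LinearMap.comp_apply (pres K) s, hs, LinearMap.id_apply, sub_self]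
    rfl
  choose t ht using h1
  let L : (Fin 4 → MvPolynomial (Fin 3) K) →ₗ[MvPolynomial (Fin 3) K] MvPolynomial (Fin 3) K :=
    (LinearMap.proj 3).comp (LinearMap.id - s.comp (pres K))
  have hL : ∀ x, L x = t x * q1 K := fun x => congrFun (ht x) 3
  have h0 : pres K ![0, q3 K, -q2 K, q1 K] = 0 := Subtype.ext (by rw [pres_val, rel]; rfl)
  have h2 : L ![0, q3 K, -q2 K, q1 K] = q1 K := by
    simp [L, h0]
  rw [LinearMap.pi_apply_eq_sum_univ, Fin.sum_univ_four] at h2
  simp only [hL] at h2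
  have h3 : q1 K * (q3 K * t (fun j => if 1 = j then 1 else 0) -
      q2 K * t (fun j => if 2 = j then 1 else 0) + q1 K * t (fun j => if 3 = j then 1 else 0) - 1)
      = 0 := by
    simp at h2
    linear_combination h2
  have h4 := congrArg constantCoeff ((mul_eq_zero.1 h3).resolve_left q1_ne)
  simp at h4

theorem pd : projectiveDimension (ModuleCat.of (MvPolynomial (Fin 3) K) (DA (al K))) = 1 := by
  apply le_antisymm
  · let f : MvPolynomial (Fin 3) K →ₗ[MvPolynomial (Fin 3) K] (Fin 4 → MvPolynomial (Fin 3) K) :=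
      LinearMap.toSpanSingleton _ _ ![0, q3 K, -q2 K, q1 K]
    have h0 : pres K ![0, q3 K, -q2 K, q1 K] = 0 := Subtype.ext (by rw [pres_val, rel]; rfl)
    have ex : Function.Exact f (pres K) := by
      intro x
      constructor
      · intro hx
        obtain ⟨t, ht⟩ := syz x (by rw [← pres_val, hx]; rfl)
        exact ⟨t, ht.symm⟩
      · rintro ⟨t, rfl⟩
        rw [LinearMap.toSpanSingleton_apply, map_smul, h0, smul_zero]
    have inj : Function.Injective f := by
      intro a b hab
      have := congrFun hab 3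
      exact mul_right_cancel₀ q1_ne this
    have S := ModuleCat.shortComplex_shortExact
      (ModuleCat.shortComplexOfCompEqZero f (pres K) ex.linearMap_comp_eq_zero) ex inj pres_surj
    have := S.hasProjectiveDimensionLT_X₃ 1 inferInstance inferInstance
    exact (projectiveDimension_le_iff _ 1).2 this
  · refine (projectiveDimension_ge_iff _ 1).2 fun h => not_proj (K := K) ?_
    rw [IsProjective.iff_projective, projective_iff_hasProjectiveDimensionLT_one]
    exact h

theorem nodiv (h : MvPolynomial (Fin 3) K) (d : ℕ) (hd : 0 < d) (hh : h.IsHomogeneous d)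
    (h3 : q3 K ∈ Ideal.span {h, q1 K}) (h2 : -q2 K ∈ Ideal.span {h, q1 K}) : False := by
  obtain ⟨a, b, e3⟩ := Ideal.mem_span_pair.1 h3
  obtain ⟨a', b', e2⟩ := Ideal.mem_span_pair.1 h2
  let π : MvPolynomial (Fin 3) K →ₐ[K] MvPolynomial (Fin 3) K := aeval ![X 2, X 1, X 2]
  have f3 := congrArg π e3
  have f2 := congrArg π e2
  simp only [map_add, map_mul, map_sub, map_neg, π, aeval_X] at f3 f2
  simp only [Matrix.cons_val_zero, Matrix.cons_val_one, Matrix.cons_val, sub_self, zero_mul,
    mul_zero, add_zero] at f3 f2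
  have r1 : IsRelPrime (al K 3) (X 1) :=
    (al_prime 3).irreducible.isRelPrime_iff_not_dvd.2 (nd ![0, 1, 1] (by simp [al]) (by simp))
  have r2 : IsRelPrime (al K 4) (X 1) :=
    (al_prime 4).irreducible.isRelPrime_iff_not_dvd.2 (nd ![0, 1, -1] (by simp [al]) (by simp))
  have r3 : IsRelPrime (al K 3) (X 2 + X 1 + X 2) :=
    (al_prime 3).irreducible.isRelPrime_iff_not_dvd.2 (nd ![0, 1, 1] (by simp [al])
      (by simp; norm_num))
  have r4 : IsRelPrime (al K 4) (X 2 + X 1 + X 2) :=
    (al_prime 4).irreducible.isRelPrime_iff_not_dvd.2 (nd ![0, 1, -1] (by simp [al]) (by simp))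
  have r := (r1.mul_right r3).mul_left (r2.mul_right r4)
  have u : IsUnit (π h) := by
    refine r ⟨-π a', ?_⟩ ⟨π a, ?_⟩
    · change (X 1 - X 2) * (X 1 + X 2) = _
      linear_combination f2
    · linear_combination -f3
  have hc : (π h).IsHomogeneous (1 * d) := hh.aeval _ fun i => by
    fin_cases i <;> exact isHomogeneous_X _ _
  have h0 : constantCoeff (π h) = 0 := hc.coeff_eq_zero (by simpa using hd.ne)
  have := u.map constantCoeff
  rw [h0] at this
  exact not_isUnit_zero this

end Pool.Agent.H.MP_ac8f1a_ag
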